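import Pool.Agent.K7.H36.CN.Defs

set_option autoImplicit false

/-! Basic lemmas on `Conn`, `Cn`, `D`. -/

namespace Pool.Agent.K7.H36.CN

variable {S : ℕ}

theorem MM_pos (S : ℕ) : 0 < MM S := Fintype.card_pos

theorem Lam_pos (S : ℕ) : 0 < Lam S := by
  have := MM_pos S
  unfold Lam
  omega

theorem Per_pos (S : ℕ) : 0 < Per S := by
  have := Lam_pos S
  unfold Per
  positivity

/-- `a` and `b` agree outside the pair `(l, p)` -/
def Agree (l : Fin S) (p : Bool) (a b : Sh S) : Prop := ∀ d : Dig S, ¬ (d.1 = l ∧ d.2.1 = p) → a d = b d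

theorem Agree.symm {l : Fin S} {p : Bool} {a b : Sh S} (h : Agree l p a b) : Agree l p b a :=
  fun d hd => (h d hd).symm

theorem Agree.trans {l : Fin S} {p : Bool} {a b c : Sh S} (h : Agree l p a b) (h' : Agree l p b c) :
    Agree l p a c := fun d hd => (h d hd).trans (h' d hd)

theorem phi_eq_iff {l : Fin S} {p : Bool} {a b : Sh S} : phi l p a = phi l p b ↔ Agree l p a b := by
  unfold phi
  constructor
  · intro h d hd
    have h1 : erase l p a = erase l p b := (Fintype.equivFin (Sh S)).injective (Fin.ext h)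
    have h2 := congrFun h1 d
    simpa [erase, hd] using h2
  · intro h
    have : erase l p a = erase l p b := by
      funext d
      unfold erase
      split_ifs with h1
      · rfl
      · exact h d h1
    rw [this]

theorem phi_lt (l : Fin S) (p : Bool) (a : Sh S) : phi l p a < MM S :=
  (Fintype.equivFin (Sh S) (erase l p a)).isLt

theorem agree_update (a : Sh S) (d : Dig S) (v : Fin 16) : Agree d.1 d.2.1 (Function.update a d v) a := by
  intro d' hd'
  rw [Function.update_of_ne]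
  rintro rfl
  exact hd' ⟨rfl, rfl⟩

theorem off_eq {d : Dig S} {a b : Sh S} (h : Agree d.1 d.2.1 a b) : off d a = off d b := by
  unfold off
  rw [phi_eq_iff.2 h]

theorem off_mem (d : Dig S) (a : Sh S) : 10 * (MM S : ℤ) ≤ off d a ∧ off d a ≤ 20 * (MM S : ℤ) := by
  have h1 := phi_lt d.1 d.2.1 a
  unfold off
  split_ifs <;> constructor <;> omega

theorem Om_congr {d : Dig S} {x : ℝ} {a b : Sh S} (h : Agree d.1 d.2.1 a b) (h1 : Om d (x, a)) :
    Om d (x, b) := by
  obtain ⟨n, hn, hx⟩ := h1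
  exact ⟨n, hn, by rw [hx]; simp only [off_eq h]⟩

theorem Conn.refl (p : ℝ × Sh S) : Conn p p 0 := by
  have := Conn.move p.1 p.1 p.2
  simpa using this

theorem Conn.nonneg {p q : ℝ × Sh S} {L : ℝ} (h : Conn p q L) : 0 ≤ L := by
  induction h with
  | move x y a => exact abs_nonneg _
  | jump => exact le_rfl
  | trans _ _ h1 h2 => linarith

theorem Conn.height {p q : ℝ × Sh S} {L : ℝ} (h : Conn p q L) : |p.1 - q.1| ≤ L := by
  induction h with
  | move x y a => exact le_rfl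
  | jump => simp
  | trans _ _ h1 h2 =>
    rw [abs_le] at *
    constructor <;> linarith

theorem Conn.symm {p q : ℝ × Sh S} {L : ℝ} (h : Conn p q L) : Conn q p L := by
  induction h with
  | move x y a =>
    rw [abs_sub_comm]
    exact Conn.move y x a
  | jump x a d v h =>
    have h1 : Om d (x, Function.update a d v) := Om_congr (agree_update a d v).symm h
    have h2 := Conn.jump x (Function.update a d v) d (a d) h1
    rw [Function.update_idem, Function.update_eq_self] at h2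
    exact h2
  | trans _ _ h1 h2 =>
    rw [add_comm]
    exact h2.trans h1

theorem IsBlk.shift {n : ℤ} {l : Fin S} {p : Bool} (h : IsBlk n l p) (m : ℤ) :
    IsBlk (n + m * 2 ^ (S + 3)) l p := by
  obtain ⟨i, rfl⟩ := h
  have h1 : (l : ℕ) ≤ S := l.isLt.le
  obtain ⟨c, hc⟩ := Nat.exists_eq_add_of_le h1
  refine ⟨i + m * 2 ^ (c + 1), ?_⟩
  have : (2 : ℤ) ^ (S + 3) = 2 ^ (l : ℕ) * (4 * 2 ^ (c + 1)) := by
    conv_lhs => rw [hc]
    ring
  rw [this]
  ring

theorem Om.shift {d : Dig S} {x : ℝ} {a : Sh S} (h : Om d (x, a)) (m : ℤ) :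
    Om d (x + m * (Per S : ℝ), a) := by
  obtain ⟨n, hn, hx⟩ := h
  refine ⟨n + m * 2 ^ (S + 3), hn.shift m, ?_⟩
  simp only at hx ⊢
  rw [hx, Per]
  push_cast
  ring

theorem Conn.shift {p q : ℝ × Sh S} {L : ℝ} (h : Conn p q L) (m : ℤ) :
    Conn (p.1 + m * (Per S : ℝ), p.2) (q.1 + m * (Per S : ℝ), q.2) L := by
  induction h with
  | move x y a =>
    have := Conn.move (x + m * (Per S : ℝ)) (y + m * (Per S : ℝ)) a
    rwa [add_sub_add_right_eq_sub] at this
  | jump x a d v h => exact Conn.jump _ _ _ _ (h.shift m)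
  | trans _ _ h1 h2 => exact h1.trans h2

/-- The switch lemma: a digit changes only at a switch. -/
theorem Conn.switch {p q : ℝ × Sh S} {L : ℝ} (h : Conn p q L) (d : Dig S) : p.2 d = q.2 d ∨
    ∃ (ω : ℝ × Sh S) (L1 L2 : ℝ), Conn p ω L1 ∧ Om d ω ∧ Conn ω q L2 ∧ L1 + L2 = L := by
  induction h with
  | move x y a => exact Or.inl rfl
  | jump x a d' v h =>
    by_cases hd : d = d'
    · subst hd
      exact Or.inr ⟨(x, a), 0, 0, Conn.refl _, h, Conn.jump x a d v h, by ring⟩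
    · left
      simp only
      rw [Function.update_of_ne hd]
  | trans h1 h2 ih1 ih2 =>
    rcases ih1 with ih1 | ⟨ω, L1, L2, a1, a2, a3, a4⟩
    · rcases ih2 with ih2 | ⟨ω, L1, L2, a1, a2, a3, a4⟩
      · exact Or.inl (ih1.trans ih2)
      · exact Or.inr ⟨ω, _, L2, h1.trans a1, a2, a3, by rw [← a4]; ring⟩
    · exact Or.inr ⟨ω, L1, _, a1, a2, a3.trans h2, by rw [← a4]; ring⟩

/-! ### `Cn` -/

theorem Conn.cn {p q : ℝ × Sh S} {L : ℝ} (h : Conn p q L) : Cn p q L := ⟨0, by simpa using h⟩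

theorem Cn.nonneg {p q : ℝ × Sh S} {L : ℝ} (h : Cn p q L) : 0 ≤ L := by
  obtain ⟨m, hm⟩ := h
  exact hm.nonneg

theorem Cn.symm {p q : ℝ × Sh S} {L : ℝ} (h : Cn p q L) : Cn q p L := by
  obtain ⟨m, hm⟩ := h
  refine ⟨-m, ?_⟩
  have h1 := hm.symm.shift (-m)
  simp only at h1
  have e : q.1 + m * (Per S : ℝ) + ((-m : ℤ) : ℝ) * (Per S : ℝ) = q.1 := by push_cast; ring
  rw [e] at h1
  exact h1

theorem Cn.trans {p q r : ℝ × Sh S} {L L' : ℝ} (h : Cn p q L) (h' : Cn q r L') : Cn p r (L + L') := by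
  obtain ⟨m, hm⟩ := h
  obtain ⟨m', hm'⟩ := h'
  refine ⟨m' + m, hm.trans ?_⟩
  have h1 := hm'.shift m
  simp only at h1
  have e : r.1 + m' * (Per S : ℝ) + (m : ℝ) * (Per S : ℝ) = r.1 + ((m' + m : ℤ) : ℝ) * (Per S : ℝ) := by
    push_cast; ring
  rw [e] at h1
  exact h1

/-- a translate of the first point -/
theorem Cn.lift_left {p q : ℝ × Sh S} {L : ℝ} (h : Cn p q L) :
    ∃ m : ℤ, Conn (p.1 + m * (Per S : ℝ), p.2) q L := by
  obtain ⟨m, hm⟩ := h.symm
  exact ⟨m, hm.symm⟩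

theorem cn_exists (hUp : StUp) (p q : ℝ × Sh S) : ∃ L, Cn p q L := by
  have h := hUp S S le_rfl p.2 q.2 (fun d hd => absurd d.1.isLt (by omega)) p.1
  exact ⟨_, (h.trans (Conn.move _ q.1 q.2)).cn⟩

theorem bddBelow_cn (p q : ℝ × Sh S) : BddBelow {L | Cn p q L} := ⟨0, fun _ h => h.nonneg⟩

theorem D_le {p q : ℝ × Sh S} {L : ℝ} (h : Cn p q L) : D p q ≤ L := csInf_le (bddBelow_cn p q) h

theorem D_nonneg (p q : ℝ × Sh S) : 0 ≤ D p q := Real.sInf_nonneg fun _ h => h.nonneg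

theorem D_self (p : ℝ × Sh S) : D p p = 0 := le_antisymm (D_le (Conn.refl p).cn) (D_nonneg _ _)

theorem D_comm (p q : ℝ × Sh S) : D p q = D q p := by
  unfold D
  congr 1
  ext L
  exact ⟨fun h => h.symm, fun h => h.symm⟩

theorem exists_cn_of_lt (hUp : StUp) {p q : ℝ × Sh S} {c : ℝ} (h : D p q < c) :
    ∃ L, Cn p q L ∧ L < c := by
  obtain ⟨L, h1, h2⟩ := exists_lt_of_csInf_lt (cn_exists hUp p q) h
  exact ⟨L, h1, h2⟩

theorem D_triangle (hUp : StUp) (p q r : ℝ × Sh S) : D p r ≤ D p q + D q r := by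
  apply le_of_forall_pos_le_add
  intro ε hε
  obtain ⟨L, h1, h2⟩ := exists_cn_of_lt hUp (show D p q < D p q + ε / 2 by linarith)
  obtain ⟨L', h1', h2'⟩ := exists_cn_of_lt hUp (show D q r < D q r + ε / 2 by linarith)
  have := D_le (h1.trans h1')
  linarith

/-! ### locality -/

theorem blk_unique {n : ℤ} {l l' : Fin S} {p p' : Bool} (h : IsBlk n l p) (h' : IsBlk n l' p') :
    l = l' ∧ p = p' := by
  obtain ⟨i, hi⟩ := h
  obtain ⟨i', hi'⟩ := h'
  have key : ∀ (a b : ℕ) (u v : ℤ), a < b → (2 : ℤ) ^ a * (2 * u + 1) = 2 ^ b * v → False := by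
    intro a b u v hab he
    obtain ⟨c, rfl⟩ := Nat.exists_eq_add_of_lt hab
    have h2 : (2 : ℤ) ^ (a + c + 1) * v = 2 ^ a * (2 * (2 ^ c * v)) := by ring
    rw [h2] at he
    have h3 := mul_left_cancel₀ (show (2 : ℤ) ^ a ≠ 0 by positivity) he
    omega
  have hll : (l : ℕ) = l' := by
    rcases lt_trichotomy (l : ℕ) (l' : ℕ) with h1 | h1 | h1
    · refine (key l l' (2 * i + (if p then 1 else 0)) (4 * i' + 1 + 2 * (if p' then 1 else 0)) h1 ?_).elim
      rw [← hi', hi]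
      ring
    · exact h1
    · refine (key l' l (2 * i' + (if p' then 1 else 0)) (4 * i + 1 + 2 * (if p then 1 else 0)) h1 ?_).elim
      rw [← hi, hi']
      ring
  have hl : l = l' := Fin.ext hll
  subst hl
  refine ⟨rfl, ?_⟩
  rw [hi] at hi'
  have h3 := mul_left_cancel₀ (show (2 : ℤ) ^ (l : ℕ) ≠ 0 by positivity) hi'
  cases p <;> cases p' <;> simp at h3 ⊢ <;> omega

/-- Near the block `n`, only the digits of its pair can change. -/
theorem Conn.local {n : ℤ} {z z' : ℝ} {b b' : Sh S} {L : ℝ} (h : Conn (z, b) (z', b') L)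
    (h1 : n * (Lam S : ℝ) - 44 * MM S < z - L) (h2 : z + L < n * (Lam S : ℝ) + 74 * MM S)
    (d : Dig S) (hd : ¬ IsBlk n d.1 d.2.1) : b d = b' d := by
  rcases h.switch d with h3 | ⟨ω, L1, L2, a1, a2, a3, a4⟩
  · exact h3
  exfalso
  obtain ⟨n', hn', hx⟩ := a2
  have hne : n' ≠ n := fun e => hd (e ▸ hn')
  have h4 := a1.height
  have h5 := a3.nonneg
  have h6 := off_mem d ω.2
  have hL : (Lam S : ℝ) = 64 * MM S := by unfold Lam; push_cast; ring
  have hM : (0 : ℝ) < MM S := by exact_mod_cast MM_pos S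
  have h7 : (10 * (MM S : ℝ)) ≤ (off d ω.2 : ℝ) := by exact_mod_cast h6.1
  have h8 : (off d ω.2 : ℝ) ≤ 20 * (MM S : ℝ) := by exact_mod_cast h6.2
  push_cast at hx
  rw [hx] at h4
  simp only at h4
  rw [abs_le] at h4
  rw [hL] at h1 h2 h4
  rcases lt_or_gt_of_ne hne with h9 | h9
  · have h10 : (n' : ℝ) + 1 ≤ n := by exact_mod_cast h9
    nlinarith [h4.1, h4.2]
  · have h10 : (n : ℝ) + 1 ≤ n' := by exact_mod_cast h9
    nlinarith [h4.1, h4.2]

end Pool.Agent.K7.H36.CN
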