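import Mathlib

set_option autoImplicit false

/-!
# A doubling game space with infinite cop number: definitions and job statements

Project CN (MP_f04f62_co). See the sketch table.
-/

namespace Pool.Agent.K7.H36.CN

open Filter Topology Set

/-! ## game spaces (final form) -/

/-- A metric space is geodesic if any two points are joined by a path whose length (the supremum of
the lengths of inscribed polygons) is exactly their distance. -/
def IsGeodesicSpace (X : Type) [MetricSpace X] : Prop :=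
  ∀ x y : X, ∃ p : ℝ → X, ContinuousOn p (Icc 0 1) ∧ p 0 = x ∧ p 1 = y ∧
    eVariationOn p (Icc 0 1) = edist x y

/-- Every open ball of radius `r` is covered by at most `K` open balls of radius `r / 2`. -/
def IsDoubling (X : Type) [MetricSpace X] (K : ℕ) : Prop :=
  ∀ (x : X) (r : ℝ), 0 < r → ∃ s : Finset X, s.card ≤ K ∧
    Metric.ball x r ⊆ ⋃ y ∈ s, Metric.ball y (r / 2)

/-- `c n i` is the position of cop `i` after step `n`. The cops start at `start`, and in step
`n + 1` each of them moves by at most `τ (n + 1)`. -/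
def IsCopPlay {X : Type} [MetricSpace X] {k : ℕ} (start : Fin k → X) (τ : ℕ → ℝ)
    (c : ℕ → Fin k → X) : Prop :=
  c 0 = start ∧ ∀ (n : ℕ) (i : Fin k), dist (c n i) (c (n + 1) i) ≤ τ (n + 1)

/-- A strategy of the robber against `k` cops: starting positions of the cops, an agility function,
and for every `n` the robber's position after his `n`-th move as a function of the earlier
positions `c 0, …, c (n - 1)` of the cops (for `n = 0` it is his starting point). His moves have to
be legal, whatever the cops do. -/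
structure RobberStrategy (X : Type) [MetricSpace X] (k : ℕ) where
  /-- starting positions of the cops -/
  start : Fin k → X
  /-- the agility function -/
  τ : ℕ → ℝ
  /-- position of the robber after his `n`-th move -/
  pos : (n : ℕ) → (Fin n → Fin k → X) → X
  τ_pos : ∀ n, 0 < τ n
  τ_sum : Tendsto (fun N => ∑ n ∈ Finset.range N, τ (n + 1)) atTop atTop
  legal : ∀ c : ℕ → Fin k → X, IsCopPlay start τ c → ∀ n : ℕ,
    dist (pos n fun j => c j) (pos (n + 1) fun j => c j) ≤ τ (n + 1)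

/-- The robber strategy `S` wins: against every play of the cops, the distances between the robber
and the cops stay bounded below by a positive constant. -/
def RobberStrategy.Wins {X : Type} [MetricSpace X] {k : ℕ} (S : RobberStrategy X k) : Prop :=
  ∀ c : ℕ → Fin k → X, IsCopPlay S.start S.τ c →
    ∃ v : ℝ, 0 < v ∧ ∀ (n : ℕ) (i : Fin k), v ≤ dist (S.pos n fun j => c j) (c n i)

/-- THE FINAL THEOREM. -/
def StFinal : Prop := ∃ (X : Type) (_ : MetricSpace X), CompactSpace X ∧ IsGeodesicSpace X ∧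
  (∃ K : ℕ, IsDoubling X K) ∧ ∀ k : ℕ, ∃ S : RobberStrategy X k, S.Wins

/-- strong form of geodesic used internally -/
def Geo (X : Type) [MetricSpace X] : Prop :=
  ∀ x y : X, ∃ γ : ℝ → X, LipschitzWith 1 γ ∧ γ 0 = x ∧ γ (dist x y) = y

/-- The beads: uniformly doubling compact geodesic spaces, as small as we want, on which the robber
wins against `k` cops. -/
def StBead : Prop := ∃ K : ℕ, ∀ (k : ℕ) (δ : ℝ), 0 < δ → ∃ (X : Type) (_ : MetricSpace X),
  CompactSpace X ∧ Geo X ∧ IsDoubling X K ∧ (∀ x y : X, dist x y ≤ δ) ∧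
  ∃ S : RobberStrategy X k, S.Wins

/-- JOB NECK: the beads are attached to the segment `[0,1]` at the points `2 ^ (-k)`. -/
def StNeck : Prop := StBead → StFinal

/-! ## the abstract guessing game -/

/-- JOB GUESS. In round `j` the `k` opponents announce `g j : Fin k → Fin 16`, then we answer with
`f j g : Fin 16`, which depends only on `g 0, …, g j`. -/
def StGuess : Prop := ∀ (k R P : ℕ) (T : ℕ → Finset ℕ) (Tgt : Set ℕ),
  (∀ Y ∈ Tgt, ∀ y ∈ T Y, y < Y ∧ Y ≤ y + P) → (∀ Y ∈ Tgt, R ≤ (T Y).card) →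
  0 < R → 4 * k * P < 8 ^ R →
  ∃ f : ℕ → (ℕ → Fin k → Fin 16) → Fin 16,
    (∀ (j : ℕ) (g g' : ℕ → Fin k → Fin 16), (∀ j' ≤ j, g j' = g' j') → f j g = f j g') ∧
    ∀ (g : ℕ → Fin k → Fin 16), ∀ Y ∈ Tgt, ∀ i : Fin k, ∃ y ∈ T Y,
      g (2 * y) i ≠ f (2 * y) g ∧ g (2 * y + 1) i ≠ f (2 * y + 1) g

/-! ## the switch network -/

/-- The digits: level `l < S`, parity `p`, type `t`. -/
abbrev Dig (S : ℕ) := Fin S × Bool × Bool

/-- A sheet: a value in `Fin 16` for every digit. -/
abbrev Sh (S : ℕ) := Dig S → Fin 16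

/-- the number of sheets -/
def MM (S : ℕ) : ℕ := Fintype.card (Sh S)

/-- the length of a block -/
def Lam (S : ℕ) : ℕ := 64 * MM S

/-- the period -/
def Per (S : ℕ) : ℕ := 2 ^ (S + 3) * Lam S

/-- the two digits of the pair `(l, p)` replaced by `0` -/
def erase {S : ℕ} (l : Fin S) (p : Bool) (a : Sh S) : Sh S :=
  fun d => if d.1 = l ∧ d.2.1 = p then 0 else a d

/-- the number of the sheet `a` outside the pair `(l, p)` -/
noncomputable def phi {S : ℕ} (l : Fin S) (p : Bool) (a : Sh S) : ℕ :=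
  (Fintype.equivFin (Sh S) (erase l p a)).val

/-- The block number `n` carries the pair `(l, p)`: `n = 2 ^ l (4 i + 1 + 2 p)`. -/
def IsBlk {S : ℕ} (n : ℤ) (l : Fin S) (p : Bool) : Prop :=
  ∃ i : ℤ, n = 2 ^ (l : ℕ) * (4 * i + 1 + 2 * (if p then 1 else 0))

/-- The offset, inside a block, of the switch of digit `d` in the sheet `a`. -/
noncomputable def off {S : ℕ} (d : Dig S) (a : Sh S) : ℤ :=
  if d.2.2 then 20 * (MM S : ℤ) - phi d.1 d.2.1 a else 10 * (MM S : ℤ) + phi d.1 d.2.1 a

/-- `p = (x, a)` is a switch for the digit `d`: here the digit `d` may be changed. -/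
def Om {S : ℕ} (d : Dig S) (p : ℝ × Sh S) : Prop :=
  ∃ n : ℤ, IsBlk n d.1 d.2.1 ∧ p.1 = ((n * (Lam S : ℤ) + off d p.2 : ℤ) : ℝ)

/-- `Conn p q L`: there is a path of length `L` from `p` to `q`. -/
inductive Conn {S : ℕ} : ℝ × Sh S → ℝ × Sh S → ℝ → Prop
  | move (x y : ℝ) (a : Sh S) : Conn (x, a) (y, a) |x - y|
  | jump (x : ℝ) (a : Sh S) (d : Dig S) (v : Fin 16) : Om d (x, a) →
      Conn (x, a) (x, Function.update a d v) 0
  | trans {p q r : ℝ × Sh S} {L L' : ℝ} : Conn p q L → Conn q r L' → Conn p r (L + L')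

/-- a path modulo the period -/
def Cn {S : ℕ} (p q : ℝ × Sh S) (L : ℝ) : Prop :=
  ∃ m : ℤ, Conn p (q.1 + m * (Per S : ℝ), q.2) L

/-- the distance -/
noncomputable def D {S : ℕ} (p q : ℝ × Sh S) : ℝ := sInf {L | Cn p q L}

/-- JOB UP: going up one can set all digits of the levels `< l`. -/
def StUp : Prop := ∀ (S l : ℕ), l ≤ S → ∀ (a b : Sh S), (∀ d : Dig S, l ≤ (d.1 : ℕ) → a d = b d) →
  ∀ y : ℝ, Conn (y, a) (y + (2 ^ (l + 1) + 2 : ℕ) * (Lam S : ℝ), b)
    ((2 ^ (l + 1) + 2 : ℕ) * (Lam S : ℝ))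

/-- JOB DBL: the network is doubling, uniformly in `S`. -/
def StDbl : Prop := ∃ K : ℕ, ∀ (S : ℕ) (p : ℝ × Sh S) (r : ℝ), 0 < r →
  ∃ s : Finset (ℝ × Sh S), s.card ≤ K ∧ ∀ q, D p q < r → ∃ c ∈ s, D c q < r / 2

/-- JOB GAME (helper36): the robber wins on the network, steps of length `1`, distance `≥ 1/2`. -/
def StRaw : Prop := ∀ k : ℕ, ∃ (S : ℕ) (start : Fin k → ℝ × Sh S)
  (pos : (n : ℕ) → (ℕ → Fin k → ℝ × Sh S) → ℝ × Sh S),
  (∀ n c c', (∀ j < n, c j = c' j) → pos n c = pos n c') ∧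
  ∀ c : ℕ → Fin k → ℝ × Sh S, (∀ i, D (c 0 i) (start i) = 0) →
    (∀ n i, D (c n i) (c (n + 1) i) ≤ 1) →
    (∀ n, D (pos n c) (pos (n + 1) c) ≤ 1) ∧ ∀ n i, 1 / 2 ≤ D (pos n c) (c n i)

/-- JOB SPACE: `(ℝ × Sh S) / ~` with the distance `κ D` is a compact geodesic metric space. -/
def StSpace : Prop := StUp → StDbl → StRaw → StBead

end Pool.Agent.K7.H36.CN
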