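import Pool.Agent.K7.H36.CN.Strat

set_option autoImplicit false

/-! JOB GAME: the robber wins on the network. -/

namespace Pool.Agent.K7.H36.CN

open Classical

variable {S k : ℕ}

theorem pow_odd_inj {a b u v : ℕ} (h : 2 ^ a + 2 ^ (a + 1) * u = 2 ^ b + 2 ^ (b + 1) * v) : a = b := by
  have key : ∀ (a b u v : ℕ), a < b → 2 ^ a + 2 ^ (a + 1) * u = 2 ^ b + 2 ^ (b + 1) * v → False := by
    intro a b u v hab he
    obtain ⟨c, rfl⟩ := Nat.exists_eq_add_of_lt hab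
    have h1 : 2 ^ a + 2 ^ (a + 1) * u = 2 ^ a * (2 * u + 1) := by ring
    have h2 : 2 ^ (a + c + 1) + 2 ^ (a + c + 1 + 1) * v = 2 ^ a * (2 * (2 ^ c * (1 + 2 * v))) := by ring
    rw [h1, h2] at he
    have h3 := Nat.eq_of_mul_eq_mul_left (show 0 < 2 ^ a by positivity) he
    omega
  rcases lt_trichotomy a b with h1 | h1 | h1
  · exact (key _ _ _ _ h1 h).elim
  · exact h1
  · exact (key _ _ _ _ h1 h.symm).elim

/-- the last block of level `l` which is `≤ Y` -/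
def lastB (l Y : ℕ) : ℕ := 2 ^ l + 2 ^ (l + 1) * ((Y - 2 ^ l) / 2 ^ (l + 1))

theorem lastB_le {l Y : ℕ} (h : 2 ^ l ≤ Y) : lastB l Y ≤ Y ∧ Y < lastB l Y + 2 ^ (l + 1) := by
  unfold lastB
  have h1 := Nat.div_add_mod (Y - 2 ^ l) (2 ^ (l + 1))
  have h2 := Nat.mod_lt (Y - 2 ^ l) (show 0 < 2 ^ (l + 1) by positivity)
  omega

/-- the tests of the target `Y` -/
def TT (S Y : ℕ) : Finset ℕ := ((Finset.range S).image fun l => lastB l Y).erase Y

theorem TT_card (S Y : ℕ) : S - 1 ≤ (TT S Y).card := by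
  unfold TT
  have h := Finset.pred_card_le_card_erase (s := (Finset.range S).image fun l => lastB l Y) (a := Y)
  have hinj : Function.Injective (fun l => lastB l Y) := fun a b h => pow_odd_inj h
  rw [Finset.card_image_of_injective _ hinj, Finset.card_range] at h
  exact h

theorem TT_mem {S Y y : ℕ} (h : y ∈ TT S Y) (hY : 2 ^ S ≤ Y) :
    ∃ (l : Fin S) (p : Bool), IsBlk (y : ℤ) l p ∧ y < Y ∧ Y < y + 2 ^ ((l : ℕ) + 1) := by
  unfold TT at h
  rw [Finset.mem_erase, Finset.mem_image] at h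
  obtain ⟨h1, l, h2, h3⟩ := h
  rw [Finset.mem_range] at h2
  have h4 : 2 ^ l ≤ Y := (Nat.pow_le_pow_right (by norm_num) h2.le).trans hY
  obtain ⟨h5, h6⟩ := lastB_le h4
  rw [h3] at h5 h6
  obtain ⟨i, hi⟩ : ∃ i, (Y - 2 ^ l) / 2 ^ (l + 1) = i := ⟨_, rfl⟩
  have h7 : y = 2 ^ l + 2 ^ (l + 1) * i := by rw [← h3, ← hi]; rfl
  obtain ⟨u, hu | hu⟩ := Nat.even_or_odd' i
  · refine ⟨⟨l, h2⟩, false, ⟨(u : ℤ), ?_⟩, by omega, h6⟩
    rw [h7, hu]
    push_cast
    simp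
    ring
  · refine ⟨⟨l, h2⟩, true, ⟨(u : ℤ), ?_⟩, by omega, h6⟩
    rw [h7, hu]
    push_cast
    simp
    ring

theorem blk_gap {l : Fin S} {p : Bool} {y n : ℤ} (hy : IsBlk y l p) (h1 : y < n)
    (h2 : n < y + 2 ^ ((l : ℕ) + 1)) (q : Bool) : ¬ (IsBlk n l q) := by
  rintro ⟨i', hi'⟩
  obtain ⟨i, hi⟩ := hy
  have hp : (0 : ℤ) < 2 ^ (l : ℕ) := by positivity
  obtain ⟨P, hP⟩ : ∃ P : ℤ, (if p then (1 : ℤ) else 0) = P := ⟨_, rfl⟩
  obtain ⟨Q, hQ⟩ : ∃ Q : ℤ, (if q then (1 : ℤ) else 0) = Q := ⟨_, rfl⟩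
  rw [hP] at hi
  rw [hQ] at hi'
  have e : n - y = 2 ^ (l : ℕ) * (2 * (2 * (i' - i) + (Q - P))) := by rw [hi, hi']; ring
  have e2 : (2 : ℤ) ^ ((l : ℕ) + 1) = 2 ^ (l : ℕ) * 2 := by ring
  rw [e2] at h2
  have h3 : 0 < 2 * (2 * (i' - i) + (Q - P)) := by
    by_contra hcon
    push Not at hcon
    nlinarith
  have h4 : 2 * (2 * (i' - i) + (Q - P)) < 2 := by
    by_contra hcon
    push Not at hcon
    nlinarith
  omega

section
variable {f : ℕ → (ℕ → Fin k → Fin 16) → Fin 16}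
  (hf : ∀ (j : ℕ) (g g' : ℕ → Fin k → Fin 16), (∀ j' ≤ j, g j' = g' j') → f j g = f j g')
  (hg : ∀ (g : ℕ → Fin k → Fin 16), ∀ Y ∈ {Y | 2 ^ S ≤ Y}, ∀ i : Fin k, ∃ y ∈ TT S Y,
      g (2 * y) i ≠ f (2 * y) g ∧ g (2 * y + 1) i ≠ f (2 * y + 1) g)
  (hUp : StUp) {c : ℕ → Fin k → ℝ × Sh S}
  (hc0 : ∀ i, D (c 0 i) (((2 ^ (S + 2) * Lam S : ℕ) : ℝ), fun _ => 0) = 0)
  (hc : ∀ n i, D (c n i) (c (n + 1) i) ≤ 1)

include hUp hc in
theorem D_cop (i : Fin k) {s t : ℕ} (h : s ≤ t) : D (c s i) (c t i) ≤ (t : ℝ) - s := by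
  induction t, h using Nat.le_induction with
  | base => rw [D_self]; simp
  | succ t h ih =>
    have h1 := D_triangle hUp (c s i) (c t i) (c (t + 1) i)
    have h2 := hc t i
    push_cast
    linarith

/-- going back in time -/
theorem cn_back (hUp : StUp) {c : ℕ → Fin k → ℝ × Sh S} (hc : ∀ n i, D (c n i) (c (n + 1) i) ≤ 1)
    {i : Fin k} {s t : ℕ} (h : s ≤ t) {z : ℝ} {a : Sh S} {L : ℝ} (h1 : Cn (c t i) (z, a) L)
    (h2 : L < z - t + 1 / 2) : ∃ L', Cn (c s i) (z, a) L' ∧ L' < z - s + 1 / 2 := by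
  obtain ⟨L1, h3, h4⟩ := exists_cn_of_lt hUp (lt_of_le_of_lt (D_cop hUp hc i h)
    (show (t : ℝ) - s < (t : ℝ) - s + (z - t + 1 / 2 - L) by linarith))
  exact ⟨L1 + L, h3.trans h1, by linarith⟩

/-- the bad event at the block `Y` -/
def Bad (f : ℕ → (ℕ → Fin k → Fin 16) → Fin 16) (c : ℕ → Fin k → ℝ × Sh S) (Y : ℕ) (i : Fin k) :
    Prop :=
  ∃ m : ℤ, ((Y * Lam S : ℕ) : ℝ) - 1 / 2 < (c (Y * Lam S) i).1 + m * (Per S : ℝ) ∧
    (c (Y * Lam S) i).1 + m * (Per S : ℝ) ≤ ((Y * Lam S : ℕ) : ℝ) + 50 * MM S ∧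
    ∀ d : Dig S, ¬ IsBlk (Y : ℤ) d.1 d.2.1 → (c (Y * Lam S) i).2 d = A f c Y d

include hf hg hUp hc0 hc in
theorem feas_absurd {Y t : ℕ} {i : Fin k} (hbad : ∀ y < Y, ¬ Bad f c y i)
    (ht : Y * Lam S + 20 * MM S ≤ t + Lam S) {z : ℝ} {a : Sh S} {L : ℝ}
    (h1 : Cn (c t i) (z, a) L) (h2 : L < z - t + 1 / 2)
    (h3 : z ≤ ((Y * Lam S : ℕ) : ℝ) + 50 * MM S)
    (h4 : ∀ d : Dig S, ¬ IsBlk (Y : ℤ) d.1 d.2.1 → a d = A f c Y d) : False := by
  have hM := MM_one S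
  have hlam := lamR S
  by_cases hY : 2 ^ S ≤ Y
  · obtain ⟨y, hy, hA, hB⟩ := hg (gg f c) Y hY i
    obtain ⟨l, p, b1, b2, b3⟩ := TT_mem hy hY
    have b3' : (Y : ℤ) < (y : ℤ) + 2 ^ ((l : ℕ) + 1) := by exact_mod_cast b3
    have b2' : (y : ℤ) < (Y : ℤ) := by exact_mod_cast b2
    have hnY : ∀ q, ¬ IsBlk (Y : ℤ) l q := fun q => blk_gap b1 b2' b3' q
    -- the digits of the target
    have hkeep : ∀ τ : Bool, A f c Y (l, p, τ) = A f c (y + 1) (l, p, τ) := by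
      intro τ
      refine A_keep f c hf Y (by omega) fun n n1 n2 => ?_
      refine blk_gap b1 (by exact_mod_cast n1) ?_ _
      have : (n : ℤ) < Y := by exact_mod_cast n2
      omega
    have hdA := A_succ_of f c hf (d := (l, p, false)) b1
    have hdB := A_succ_of f c hf (d := (l, p, true)) b1
    simp only [Bool.false_eq_true, if_false, add_zero] at hdA
    simp only [if_true] at hdB
    have hoA := off_mem (l, p, false) (A f c y)
    have hoB := off_mem (l, p, true) (A f c y)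
    have hM' := MM_pos S
    have hlt : y * Lam S + Lam S ≤ Y * Lam S := by
      have : (y + 1) * Lam S ≤ Y * Lam S := Nat.mul_le_mul_right _ b2
      linarith
    have hLam' : Lam S = 64 * MM S := rfl
    set TA := y * Lam S + (off (l, p, false) (A f c y)).toNat with hTA
    set TB := y * Lam S + (off (l, p, true) (A f c y)).toNat with hTB
    have cA : ((off (l, p, false) (A f c y)).toNat : ℤ) = off (l, p, false) (A f c y) :=
      Int.toNat_of_nonneg (by omega)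
    have cB : ((off (l, p, true) (A f c y)).toNat : ℤ) = off (l, p, true) (A f c y) :=
      Int.toNat_of_nonneg (by omega)
    have oT := off_type (l := l) (p := p) (A f c y)
    have hTAt : TA ≤ t := by omega
    have hTBt : TB ≤ t := by omega
    have hTAB : TA ≤ TB := by omega
    obtain ⟨LA, p1, p2⟩ := cn_back hUp hc hTAt h1 h2
    obtain ⟨LB, p3, p4⟩ := cn_back hUp hc hTBt h1 h2
    have cAR : (TA : ℝ) = ((y : ℤ) : ℝ) * (Lam S : ℝ) + off (l, p, false) (A f c y) := by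
      have e : (TA : ℤ) = (y : ℤ) * (Lam S : ℤ) + off (l, p, false) (A f c y) := by
        rw [hTA, Nat.cast_add, Nat.cast_mul, cA]
      exact_mod_cast e
    have cBR : (TB : ℝ) = ((y : ℤ) : ℝ) * (Lam S : ℝ) + off (l, p, true) (A f c y) := by
      have e : (TB : ℤ) = (y : ℤ) * (Lam S : ℤ) + off (l, p, true) (A f c y) := by
        rw [hTB, Nat.cast_add, Nat.cast_mul, cB]
      exact_mod_cast e
    have q0 := D_cop hUp hc i (show y * Lam S ≤ TA by omega)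
    have q1 := D_cop hUp hc i hTAB
    obtain ⟨m, m1, m2, m3⟩ := key hUp (Y := (Y : ℤ)) b1 b3' (a := A f c y) (a'' := a) (h := z)
      (t0 := ((y * Lam S : ℕ) : ℝ)) (by push_cast; ring) cAR cBR p1 p2 p3 p4
      (by push_cast at h3 ⊢; exact h3) q0 q1
      (by
        rw [h4 _ (hnY p), hkeep false, hdA.1]
        rw [hdA.2] at hA
        exact hA)
      (by
        rw [h4 _ (hnY p), hkeep true, hdB.1]
        rw [hdB.2] at hB
        exact hB)
    exact hbad y b2 ⟨m, m1, m2, m3⟩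
  · push Not at hY
    obtain ⟨L1, p1, p2⟩ := cn_back hUp hc (Nat.zero_le t) h1 h2
    obtain ⟨L2, p3, p4⟩ := exists_cn_of_lt hUp (lt_of_eq_of_lt (hc0 i)
      (show (0 : ℝ) < z - (0 : ℕ) + 1 / 2 - L1 by linarith))
    obtain ⟨m, hm⟩ := (p3.symm.trans p1)
    have e := hm.height
    simp only at e
    rw [abs_le] at e
    have hz : z < ((2 ^ S * Lam S : ℕ) : ℝ) := by
      have h5 : ((Y * Lam S : ℕ) : ℝ) + 64 * MM S ≤ ((2 ^ S * Lam S : ℕ) : ℝ) := by
        rw [← hlam]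
        have : (Y + 1) * Lam S ≤ 2 ^ S * Lam S := Nat.mul_le_mul_right _ hY
        have h6 : (((Y + 1) * Lam S : ℕ) : ℝ) ≤ ((2 ^ S * Lam S : ℕ) : ℝ) := by exact_mod_cast this
        push_cast at h6 ⊢
        linarith
      linarith
    have hX : (64 : ℝ) ≤ ((2 ^ S * Lam S : ℕ) : ℝ) := by
      have h5 : (1 : ℝ) ≤ 2 ^ S := one_le_pow₀ (by norm_num)
      push_cast
      rw [hlam]
      nlinarith
    set X := ((2 ^ S * Lam S : ℕ) : ℝ) with hXdef
    have hPer : (Per S : ℝ) = 8 * X := by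
      rw [hXdef]
      unfold Per
      push_cast
      ring
    have hSt : ((2 ^ (S + 2) * Lam S : ℕ) : ℝ) = 4 * X := by
      rw [hXdef]
      push_cast
      ring
    rw [hPer, hSt] at e
    push_cast at p2 p4
    rcases le_or_gt m 0 with h6 | h6
    · have h7 : (m : ℝ) ≤ 0 := by exact_mod_cast h6
      nlinarith [e.2]
    · have h7 : (1 : ℝ) ≤ m := by exact_mod_cast h6
      nlinarith [e.1]

include hf hg hUp hc0 hc in
theorem not_bad (Y : ℕ) (i : Fin k) : ¬ Bad f c Y i := by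
  induction Y using Nat.strong_induction_on with
  | _ Y ih =>
    rintro ⟨m, m1, m2, m3⟩
    refine feas_absurd hf hg hUp hc0 hc (t := Y * Lam S) (i := i) (fun y hy => ih y hy)
      (by unfold Lam; omega) (z := (c (Y * Lam S) i).1 + m * (Per S : ℝ)) (a := (c (Y * Lam S) i).2)
      (L := 0) ?_ (by linarith) m2 m3
    refine ⟨-m, ?_⟩
    have e : (c (Y * Lam S) i).1 + (m : ℝ) * (Per S : ℝ) + ((-m : ℤ) : ℝ) * (Per S : ℝ) =
      (c (Y * Lam S) i).1 := by push_cast; ring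
    simp only [e]
    exact Conn.refl _

include hf hg hUp hc0 hc in
theorem far (t : ℕ) (i : Fin k) : 1 / 2 ≤ D ((t : ℝ), (st f c t).1) (c t i) := by
  by_contra hcon
  push Not at hcon
  have hM := MM_one S
  have hlam := lamR S
  obtain ⟨n, s, hs, rfl⟩ : ∃ n s : ℕ, s < Lam S ∧ t = n * Lam S + s :=
    ⟨t / Lam S, t % Lam S, Nat.mod_lt _ (Lam_pos S), by rw [mul_comm]; exact (Nat.div_add_mod _ _).symm⟩
  by_cases h20 : s ≤ 20 * MM S
  · have h1 := D_cop hUp hc i (show n * Lam S ≤ n * Lam S + s by omega)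
    have h2 := D_triangle hUp (c (n * Lam S) i) (c (n * Lam S + s) i)
      (((n * Lam S + s : ℕ) : ℝ), (st f c (n * Lam S + s)).1)
    rw [D_comm (c (n * Lam S + s) i)] at h2
    obtain ⟨L, h3, h4⟩ := exists_cn_of_lt hUp (show D (c (n * Lam S) i)
      (((n * Lam S + s : ℕ) : ℝ), (st f c (n * Lam S + s)).1) < (s : ℝ) + 1 / 2 by
        push_cast at h1
        linarith)
    obtain ⟨m, hm⟩ := h3.lift_left
    have e := hm.height
    simp only at e
    rw [abs_le] at e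
    have hsR : (s : ℝ) ≤ 20 * MM S := by exact_mod_cast h20
    have hL0 := hm.nonneg
    refine not_bad hf hg hUp hc0 hc n i ⟨m, ?_, ?_, fun d hd => ?_⟩
    · push_cast at e ⊢
      linarith [e.1, e.2]
    · push_cast at e ⊢
      linarith [e.1, e.2]
    · rw [← (block f c hf n s hs.le).1 d hd]
      refine (Conn.local (n := (n : ℤ)) hm.symm ?_ ?_ d hd).symm
      · push_cast
        linarith
      · push_cast
        linarith
  · push Not at h20
    have h1 := late f c hf (n := n) (Lam S - s) s (by omega) h20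
    rw [D_comm] at hcon
    obtain ⟨L, h3, h4⟩ := exists_cn_of_lt hUp hcon
    have hmv := Conn.move ((n * Lam S + s : ℕ) : ℝ) (((n + 1) * Lam S : ℕ) : ℝ)
      (st f c (n * Lam S + s)).1
    have hsR : (s : ℝ) < Lam S := by exact_mod_cast hs
    have e : |((n * Lam S + s : ℕ) : ℝ) - (((n + 1) * Lam S : ℕ) : ℝ)| =
        (((n + 1) * Lam S : ℕ) : ℝ) - ((n * Lam S + s : ℕ) : ℝ) := by
      rw [abs_sub_comm, abs_of_nonneg]
      push_cast
      linarith
    rw [e] at hmv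
    refine feas_absurd hf hg hUp hc0 hc (Y := n + 1) (t := n * Lam S + s) (i := i)
      (fun y _ => not_bad hf hg hUp hc0 hc y i)
      (by
        have : (n + 1) * Lam S = n * Lam S + Lam S := by ring
        omega) (h3.trans hmv.cn) (by linarith) (by linarith) (fun d _ => ?_)
    rw [h1]
    rfl

end

/-- JOB GAME -/
theorem raw (hG : StGuess) (hUp : StUp) : StRaw := by
  intro k
  obtain ⟨f, hf, hg⟩ := hG k (k + 4) (2 ^ (k + 5)) (TT (k + 5)) {Y | 2 ^ (k + 5) ≤ Y}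
    (by
      intro Y hY y hy
      obtain ⟨l, p, _, h1, h2⟩ := TT_mem hy hY
      refine ⟨h1, h2.le.trans ?_⟩
      have : 2 ^ ((l : ℕ) + 1) ≤ 2 ^ (k + 5) := Nat.pow_le_pow_right (by norm_num) l.isLt
      omega)
    (fun Y _ => TT_card (k + 5) Y) (by omega)
    (by
      have h1 : k < 2 ^ k := Nat.lt_two_pow_self
      have h2 : (8 : ℕ) ^ (k + 4) = 2 ^ k * 2 ^ k * 2 ^ k * 4096 := by
        rw [show (8 : ℕ) = 2 ^ 3 by norm_num, ← pow_mul]
        ring
      have h3 : (2 : ℕ) ^ (k + 5) = 2 ^ k * 32 := by ring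
      rw [h2, h3]
      have h4 : 0 < 2 ^ k := by positivity
      nlinarith [Nat.mul_le_mul h1.le h1.le, Nat.mul_pos h4 h4, Nat.mul_pos (Nat.mul_pos h4 h4) h4])
  refine ⟨k + 5, fun _ => (((2 ^ (k + 5 + 2) * Lam (k + 5) : ℕ) : ℝ), fun _ => 0),
    fun n c => ((n : ℝ), (st f c n).1), fun n c c' h => ?_, fun c hc0 hc => ⟨fun n => ?_, fun n i => ?_⟩⟩
  · simp only
    rw [st_congr f n h]
  · exact D_le (legal f c n).cn
  · exact far hf hg hUp hc0 hc n i

end Pool.Agent.K7.H36.CN
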