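import Pool.Agent.K7.H36.CN.Basic

set_option autoImplicit false

/-! The geometric key lemmas of job GAME. -/

namespace Pool.Agent.K7.H36.CN

variable {S : ℕ}

theorem lamR (S : ℕ) : (Lam S : ℝ) = 64 * MM S := by unfold Lam; push_cast; ring

theorem MM_one (S : ℕ) : (1 : ℝ) ≤ MM S := by exact_mod_cast MM_pos S

theorem off_diff {d : Dig S} (a b : Sh S) : off d a - off d b < MM S := by
  have h1 := phi_lt d.1 d.2.1 a
  have h2 := phi_lt d.1 d.2.1 b
  unfold off
  split_ifs <;> omega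

theorem agree_of_local {y : ℤ} {l : Fin S} {p : Bool} (hy : IsBlk y l p) {a b : Sh S}
    (h : ∀ d : Dig S, ¬ IsBlk y d.1 d.2.1 → a d = b d) : Agree l p a b := by
  intro d hd
  apply h
  intro h1
  exact hd (blk_unique h1 hy)

/-- A cop which has not the right digit `d` at time `t_d` but still can reach the target has a later
switch. -/
theorem sw_late {Y y : ℤ} {d : Dig S} (hy : IsBlk y d.1 d.2.1)
    (h2 : Y < y + 2 ^ ((d.1 : ℕ) + 1)) {a a'' b : Sh S} {z h L : ℝ} {t : ℝ}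
    (ht : t = y * (Lam S : ℝ) + off d a) (hc : Cn (z, b) (h, a'') L) (hL : L < h - t + 1 / 2)
    (hh : h ≤ Y * (Lam S : ℝ) + 50 * MM S) (hne : b d ≠ a'' d) :
    ∃ m : ℤ, off d a ≤ off d b ∧
      |z + m * (Per S : ℝ) - (y * (Lam S : ℝ) + off d b)| < off d b - off d a + 1 / 2 := by
  obtain ⟨m, hm⟩ := hc.lift_left
  simp only at hm
  rcases hm.switch d with h3 | ⟨ω, L1, L2, a1, a2, a3, a4⟩
  · exact absurd h3 hne
  obtain ⟨n, hn, hx⟩ := a2
  push_cast at hx
  have e1 := a1.height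
  have e2 := a3.height
  have e3 := a1.nonneg
  have e4 := a3.nonneg
  simp only at e1 e2
  rw [abs_le] at e1 e2
  have hM := MM_one S
  have o1 := off_mem d a
  have o2 := off_mem d ω.2
  have o1R : 10 * (MM S : ℝ) ≤ off d a ∧ (off d a : ℝ) ≤ 20 * MM S := by
    constructor
    · exact_mod_cast o1.1
    · exact_mod_cast o1.2
  have o2R : 10 * (MM S : ℝ) ≤ off d ω.2 ∧ (off d ω.2 : ℝ) ≤ 20 * MM S := by
    constructor
    · exact_mod_cast o2.1
    · exact_mod_cast o2.2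
  have o3 : (off d ω.2 : ℝ) - off d a < MM S := by exact_mod_cast off_diff (d := d) ω.2 a
  have hlam := lamR S
  have hL1 : L1 < ω.1 - t + 1 / 2 := by linarith [e2.1, e2.2]
  -- the block
  have hny : n = y := by
    obtain ⟨i', hi'⟩ := hn
    obtain ⟨i, hi⟩ := hy
    have hp : (1 : ℤ) ≤ 2 ^ (d.1 : ℕ) := one_le_pow₀ (by norm_num)
    rcases lt_trichotomy i' i with h4 | h4 | h4
    · exfalso
      have h5 : n ≤ y - 4 := by
        rw [hi', hi]
        nlinarith
      have h6 : (n : ℝ) ≤ y - 4 := by exact_mod_cast h5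
      have h7 : (n : ℝ) * (Lam S : ℝ) ≤ (y - 4) * (Lam S : ℝ) :=
        mul_le_mul_of_nonneg_right h6 (by positivity)
      rw [hx] at hL1
      nlinarith
    · rw [hi', hi, h4]
    · exfalso
      have h5 : y + 4 * 2 ^ (d.1 : ℕ) ≤ n := by
        rw [hi', hi]
        nlinarith
      have h6 : 2 * Y - y ≤ y + 4 * 2 ^ (d.1 : ℕ) - 2 := by
        have : (2 : ℤ) ^ ((d.1 : ℕ) + 1) = 2 * 2 ^ (d.1 : ℕ) := by ring
        rw [this] at h2
        omega
      have h7 : 2 * Y - y + 2 ≤ n := by omega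
      have h8 : (2 * (Y : ℝ) - y + 2) ≤ n := by exact_mod_cast h7
      have h9 : (2 * (Y : ℝ) - y + 2) * (Lam S : ℝ) ≤ n * (Lam S : ℝ) :=
        mul_le_mul_of_nonneg_right h8 (by positivity)
      have h10 : ω.1 < 2 * h - t + 1 / 2 := by linarith [e2.1, e2.2]
      rw [hx] at h10
      nlinarith
  subst hny
  have h5 : off d a ≤ off d ω.2 := by
    by_contra hcon
    have h6 : off d ω.2 + 1 ≤ off d a := by omega
    have h7 : (off d ω.2 : ℝ) + 1 ≤ off d a := by exact_mod_cast h6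
    rw [hx] at hL1
    linarith
  have hloc : ∀ d' : Dig S, ¬ IsBlk n d'.1 d'.2.1 → b d' = ω.2 d' := by
    have h6 : L1 < MM S + 1 / 2 := by rw [hx] at hL1; linarith
    refine Conn.local (n := n) (z := z + m * (Per S : ℝ)) (z' := ω.1) (L := L1) a1 ?_ ?_
    · rw [hx] at e1
      linarith [e1.1, e1.2]
    · rw [hx] at e1
      linarith [e1.1, e1.2]
  have hag : Agree d.1 d.2.1 b ω.2 := agree_of_local hy hloc
  have ho := off_eq hag
  refine ⟨m, by rw [ho]; exact h5, ?_⟩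
  rw [ho, ← hx]
  refine lt_of_le_of_lt (abs_le.2 e1) ?_
  rw [hx] at hL1
  linarith

/-- If a cop misses both guesses in the block `y` and still can reach the target then it was at the
place of the robber. -/
theorem key (hUp : StUp) {Y y : ℤ} {l : Fin S} {p : Bool} (hy : IsBlk y l p)
    (h2 : Y < y + 2 ^ ((l : ℕ) + 1)) {a a'' : Sh S} {h LA LB : ℝ} {tA tB t0 : ℝ}
    {c0 cA cB : ℝ × Sh S}
    (ht0 : t0 = y * (Lam S : ℝ))
    (htA : tA = y * (Lam S : ℝ) + off (l, p, false) a)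
    (htB : tB = y * (Lam S : ℝ) + off (l, p, true) a)
    (hcA : Cn cA (h, a'') LA) (hLA : LA < h - tA + 1 / 2)
    (hcB : Cn cB (h, a'') LB) (hLB : LB < h - tB + 1 / 2)
    (hh : h ≤ Y * (Lam S : ℝ) + 50 * MM S)
    (h0A : D c0 cA ≤ tA - t0) (hAB : D cA cB ≤ tB - tA)
    (hneA : cA.2 (l, p, false) ≠ a'' (l, p, false)) (hneB : cB.2 (l, p, true) ≠ a'' (l, p, true)) :
    ∃ m : ℤ, t0 - 1 / 2 < c0.1 + m * (Per S : ℝ) ∧
      c0.1 + m * (Per S : ℝ) ≤ t0 + 50 * MM S ∧
      ∀ d : Dig S, ¬ IsBlk y d.1 d.2.1 → c0.2 d = a d := by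
  obtain ⟨zA, b⟩ := cA
  obtain ⟨zB, b'⟩ := cB
  obtain ⟨z0, b0⟩ := c0
  obtain ⟨m, hm1, hm2⟩ := sw_late (d := (l, p, false)) hy h2 htA hcA hLA hh hneA
  obtain ⟨m', hm1', hm2'⟩ := sw_late (d := (l, p, true)) hy h2 htB hcB hLB hh hneB
  have hM := MM_one S
  have hlam := lamR S
  have pa := phi_lt l p a
  have pb := phi_lt l p b
  have pb' := phi_lt l p b'
  have eA : ∀ c : Sh S, off (l, p, false) c = 10 * (MM S : ℤ) + phi l p c := fun c => by simp [off]
  have eB : ∀ c : Sh S, off (l, p, true) c = 20 * (MM S : ℤ) - phi l p c := fun c => by simp [off]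
  rw [eA, eA] at hm1 hm2
  rw [eB, eB] at hm1' hm2'
  rw [eA] at htA
  rw [eB] at htB
  have f1 : phi l p a ≤ phi l p b := by omega
  have f2 : phi l p b' ≤ phi l p a := by omega
  push_cast at hm2 hm2' htA htB
  rw [abs_lt] at hm2 hm2'
  have paR : (phi l p a : ℝ) + 1 ≤ MM S := by exact_mod_cast pa
  have pbR : (phi l p b : ℝ) + 1 ≤ MM S := by exact_mod_cast pb
  have pbR' : (phi l p b' : ℝ) + 1 ≤ MM S := by exact_mod_cast pb'
  have pa0 : (0 : ℝ) ≤ phi l p a := by positivity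
  have pb0 : (0 : ℝ) ≤ phi l p b := by positivity
  have pb0' : (0 : ℝ) ≤ phi l p b' := by positivity
  -- b' and b agree
  have hag1 : Agree l p b' b := by
    rw [D_comm] at hAB
    obtain ⟨L', ⟨n, hn⟩, hL'⟩ := exists_cn_of_lt hUp (lt_of_le_of_lt hAB
      (show tB - tA < tB - tA + 1 / 2 by linarith))
    have h3 := hn.shift m'
    simp only at h3
    refine agree_of_local hy (Conn.local h3 ?_ ?_)
    · linarith [hm2'.1, hm2'.2]
    · linarith [hm2'.1, hm2'.2]
  have f3 : phi l p b' = phi l p b := phi_eq_iff.2 hag1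
  have f4 : phi l p b = phi l p a := by omega
  have hag2 : Agree l p b a := phi_eq_iff.1 f4
  have hba : ∀ d : Dig S, ¬ IsBlk y d.1 d.2.1 → b d = a d := by
    intro d hd
    apply hag2
    rintro ⟨e1, e2⟩
    apply hd
    rw [e1, e2]
    exact hy
  rw [f4] at hm2
  set zt := zA + m * (Per S : ℝ) with hzt
  have g1 : tA - 1 / 2 < zt := by linarith [hm2.1]
  have g2 : zt < tA + 1 / 2 := by linarith [hm2.2]
  rw [D_comm] at h0A
  obtain ⟨L', ⟨n, hn⟩, hL'⟩ := exists_cn_of_lt hUp (lt_of_le_of_lt h0A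
      (show tA - t0 < tA - t0 + (zt - (tA - 1 / 2)) by linarith))
  have h3 := hn.shift m
  simp only at h3
  have h4 := h3.height
  simp only at h4
  rw [← hzt] at h3 h4
  rw [abs_le] at h4
  have e5 : z0 + n * (Per S : ℝ) + m * (Per S : ℝ) = z0 + ((n + m : ℤ) : ℝ) * (Per S : ℝ) := by
    push_cast; ring
  rw [e5] at h3 h4
  refine ⟨n + m, by linarith [h4.1, h4.2], by linarith [h4.1, h4.2], fun d hd => ?_⟩
  rw [← hba d hd]
  refine (Conn.local h3 ?_ ?_ d hd).symm
  · linarith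
  · linarith

end Pool.Agent.K7.H36.CN
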