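import Pool.Agent.K7.H36.CN.Key

set_option autoImplicit false

/-! The strategy of the robber: the sheets. -/

namespace Pool.Agent.K7.H36.CN

open Classical

variable {S k : ℕ}

/-- the round of the guessing game played at time `t` with the digit `d` -/
def idx (t : ℕ) (d : Dig S) : ℕ := 2 * (t / Lam S) + (if d.2.2 then 1 else 0)

/-- the table of guesses with the digits `d` of the cops entered -/
def stepG (ct : Fin k → ℝ × Sh S) (t : ℕ) (d : Dig S) (G : ℕ → Fin k → Fin 16) :
    ℕ → Fin k → Fin 16 := Function.update G (idx t d) (fun i => (ct i).2 d)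

/-- the sheet of the robber and the table of guesses -/
noncomputable def st (f : ℕ → (ℕ → Fin k → Fin 16) → Fin 16) (c : ℕ → Fin k → ℝ × Sh S) :
    ℕ → Sh S × (ℕ → Fin k → Fin 16)
  | 0 => (fun _ => 0, fun _ _ => 0)
  | t + 1 => if h : ∃ d : Dig S, Om d ((t : ℝ), (st f c t).1) then
      (Function.update (st f c t).1 h.choose
        (f (idx t h.choose) (stepG (c t) t h.choose (st f c t).2)),
        stepG (c t) t h.choose (st f c t).2)
      else st f c t

theorem st_congr (f : ℕ → (ℕ → Fin k → Fin 16) → Fin 16) {c c' : ℕ → Fin k → ℝ × Sh S} (n : ℕ)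
    (h : ∀ j < n, c j = c' j) : st f c n = st f c' n := by
  induction n with
  | zero => rfl
  | succ n ih =>
    have h1 := ih fun j hj => h j (by omega)
    have h2 := h n (by omega)
    unfold st
    simp only [h1, h2]

theorem sw_iff {n s : ℕ} (hs : s < Lam S) (a : Sh S) (d : Dig S) :
    Om d (((n * Lam S + s : ℕ) : ℝ), a) ↔ IsBlk (n : ℤ) d.1 d.2.1 ∧ (s : ℤ) = off d a := by
  have h2 := off_mem d a
  have h3 := MM_pos S
  have h4 : (Lam S : ℤ) = 64 * MM S := by unfold Lam; push_cast; ring
  constructor
  · rintro ⟨n', h1, hx⟩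
    simp only at hx
    have hx' : ((n * Lam S + s : ℕ) : ℤ) = n' * (Lam S : ℤ) + off d a := by exact_mod_cast hx
    push_cast at hx'
    have h5 : n' = n := by
      rcases lt_trichotomy n' n with h6 | h6 | h6
      · have : (n' + 1) * (Lam S : ℤ) ≤ n * (Lam S : ℤ) :=
          mul_le_mul_of_nonneg_right (by omega) (by omega)
        nlinarith
      · exact h6
      · have : ((n : ℤ) + 1) * (Lam S : ℤ) ≤ n' * (Lam S : ℤ) :=
          mul_le_mul_of_nonneg_right (by omega) (by omega)
        have h7 : (s : ℤ) < Lam S := by exact_mod_cast hs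
        nlinarith
    subst h5
    exact ⟨h1, by linarith⟩
  · rintro ⟨h1, h5⟩
    refine ⟨n, h1, ?_⟩
    simp only
    rw [← h5]
    push_cast
    ring

variable (f : ℕ → (ℕ → Fin k → Fin 16) → Fin 16) (c : ℕ → Fin k → ℝ × Sh S)

theorem st_none {t : ℕ} (h : ¬ ∃ d : Dig S, Om d ((t : ℝ), (st f c t).1)) :
    st f c (t + 1) = st f c t := by
  rw [st]
  exact dif_neg h

theorem st_some {t : ℕ} (h : ∃ d : Dig S, Om d ((t : ℝ), (st f c t).1)) :
    ∃ d : Dig S, Om d ((t : ℝ), (st f c t).1) ∧ st f c (t + 1) =
      (Function.update (st f c t).1 d (f (idx t d) (stepG (c t) t d (st f c t).2)),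
        stepG (c t) t d (st f c t).2) := by
  refine ⟨h.choose, h.choose_spec, ?_⟩
  rw [st]
  exact dif_pos h

/-- the sheet at the beginning of the block `n` -/
noncomputable def A (n : ℕ) : Sh S := (st f c (n * Lam S)).1

theorem off_type {l : Fin S} {p : Bool} (a : Sh S) : off (l, p, false) a < off (l, p, true) a := by
  have h1 := phi_lt l p a
  have h2 := MM_pos S
  simp only [off]
  simp
  omega

theorem block (hf : ∀ (j : ℕ) (g g' : ℕ → Fin k → Fin 16), (∀ j' ≤ j, g j' = g' j') → f j g = f j g')
    (n : ℕ) : ∀ s : ℕ, s ≤ Lam S →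
    (∀ d : Dig S, ¬ IsBlk (n : ℤ) d.1 d.2.1 → (st f c (n * Lam S + s)).1 d = A f c n d) ∧
    (∀ d : Dig S, IsBlk (n : ℤ) d.1 d.2.1 → (s : ℤ) ≤ off d (A f c n) →
      (st f c (n * Lam S + s)).1 d = A f c n d) ∧
    (∀ d : Dig S, IsBlk (n : ℤ) d.1 d.2.1 → off d (A f c n) < s →
      (st f c (n * Lam S + s)).1 d = f (2 * n + (if d.2.2 then 1 else 0)) (st f c (n * Lam S + s)).2 ∧
      (st f c (n * Lam S + s)).2 (2 * n + (if d.2.2 then 1 else 0)) =
        fun i => (c (n * Lam S + (off d (A f c n)).toNat) i).2 d) ∧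
    (∀ j : ℕ, j / 2 ≠ n → (st f c (n * Lam S + s)).2 j = (st f c (n * Lam S)).2 j) := by
  intro s
  induction s with
  | zero =>
    intro _
    refine ⟨fun d _ => rfl, fun d _ _ => rfl, fun d _ h => ?_, fun j _ => rfl⟩
    exfalso
    have := (off_mem d (A f c n)).1
    have := MM_pos S
    push_cast at h
    omega
  | succ s ih =>
    intro hs
    obtain ⟨h1, h2, h3, h4⟩ := ih (by omega)
    have hsl : s < Lam S := by omega
    -- the sheet agrees with `A n`
    have hoff : ∀ d : Dig S, IsBlk (n : ℤ) d.1 d.2.1 →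
        off d (st f c (n * Lam S + s)).1 = off d (A f c n) := by
      intro d hd
      exact off_eq (agree_of_local hd h1)
    have hdiv : (n * Lam S + s) / Lam S = n := by
      have := Lam_pos S
      rw [mul_comm, Nat.mul_add_div this, Nat.div_eq_of_lt hsl, add_zero]
    rw [← add_assoc]
    by_cases hsw : ∃ d : Dig S, Om d (((n * Lam S + s : ℕ) : ℝ), (st f c (n * Lam S + s)).1)
    · obtain ⟨d0, hd0, he⟩ := st_some f c hsw
      obtain ⟨hb0, ho0⟩ := (sw_iff hsl _ _).1 hd0
      rw [hoff d0 hb0] at ho0
      have hidx : idx (n * Lam S + s) d0 = 2 * n + (if d0.2.2 then 1 else 0) := by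
        unfold idx
        rw [hdiv]
      rw [he]
      simp only
      refine ⟨fun d hd => ?_, fun d hd hle => ?_, fun d hd hlt => ?_, fun j hj => ?_⟩
      · rw [Function.update_of_ne (by rintro rfl; exact hd hb0)]
        exact h1 d hd
      · rw [Function.update_of_ne (by rintro rfl; omega)]
        exact h2 d hd (by push_cast at hle; omega)
      · by_cases hdd : d = d0
        · subst hdd
          rw [Function.update_self, ← hidx]
          refine ⟨rfl, ?_⟩
          unfold stepG
          rw [Function.update_self]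
          funext i
          have : (off d (A f c n)).toNat = s := by omega
          rw [this]
        · have hl := blk_unique hd hb0
          obtain ⟨l, p, τ⟩ := d
          obtain ⟨l0, p0, τ0⟩ := d0
          simp only at hl hb0 hd
          obtain ⟨rfl, rfl⟩ := hl
          have hlt' : off (l, p, τ) (A f c n) < s := by
            rcases lt_or_eq_of_le (Int.lt_add_one_iff.1 (by push_cast at hlt; exact hlt)) with h5 | h5
            · exact h5
            · exfalso
              have h6 := off_type (l := l) (p := p) (A f c n)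
              cases τ <;> cases τ0
              · exact hdd rfl
              · omega
              · omega
              · exact hdd rfl
          have hτ : τ = false ∧ τ0 = true := by
            have h6 := off_type (l := l) (p := p) (A f c n)
            cases τ <;> cases τ0
            · exact absurd rfl hdd
            · exact ⟨rfl, rfl⟩
            · omega
            · exact absurd rfl hdd
          obtain ⟨rfl, rfl⟩ := hτ
          obtain ⟨h5, h6⟩ := h3 (l, p, false) hd hlt'
          simp only [Bool.false_eq_true, if_false, add_zero] at h5 h6 ⊢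
          rw [Function.update_of_ne (by simp), h5]
          have hG : ∀ j' ≤ 2 * n, stepG (c (n * Lam S + s)) (n * Lam S + s) (l, p, true)
              (st f c (n * Lam S + s)).2 j' = (st f c (n * Lam S + s)).2 j' := by
            intro j' hj'
            unfold stepG
            rw [hidx, Function.update_of_ne]
            simp
            omega
          refine ⟨(hf _ _ _ hG).symm, ?_⟩
          rw [hG _ le_rfl]
          exact h6
      · unfold stepG
        rw [Function.update_of_ne]
        · exact h4 j hj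
        · rw [hidx]
          rintro rfl
          apply hj
          split_ifs <;> omega
    · rw [st_none f c hsw]
      have hno : ∀ d : Dig S, IsBlk (n : ℤ) d.1 d.2.1 → (s : ℤ) ≠ off d (A f c n) := by
        intro d hd he
        exact hsw ⟨d, (sw_iff hsl _ _).2 ⟨hd, by rw [hoff d hd]; exact he⟩⟩
      refine ⟨h1, fun d hd hle => h2 d hd (by push_cast at hle; omega), fun d hd hlt => ?_, h4⟩
      have := hno d hd
      exact h3 d hd (by push_cast at hlt; omega)

/-- the final table of guesses -/
noncomputable def gg (j : ℕ) : Fin k → Fin 16 := (st f c ((j / 2 + 1) * Lam S)).2 j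

section
variable (hf : ∀ (j : ℕ) (g g' : ℕ → Fin k → Fin 16), (∀ j' ≤ j, g j' = g' j') → f j g = f j g')
include hf

theorem table (j : ℕ) : ∀ m : ℕ, j / 2 + 1 ≤ m → (st f c (m * Lam S)).2 j = gg f c j := by
  intro m hm
  induction m, hm using Nat.le_induction with
  | base => rfl
  | succ m hm ih =>
    have h := (block f c hf m (Lam S) le_rfl).2.2.2 j (by omega)
    have e : (m + 1) * Lam S = m * Lam S + Lam S := by ring
    rw [e, h, ih]

theorem A_succ_of_not {n : ℕ} {d : Dig S} (hd : ¬ IsBlk (n : ℤ) d.1 d.2.1) :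
    A f c (n + 1) d = A f c n d := by
  have h := (block f c hf n (Lam S) le_rfl).1 d hd
  have e : (n + 1) * Lam S = n * Lam S + Lam S := by ring
  unfold A at h ⊢
  rw [e, h]

theorem A_succ_of {n : ℕ} {d : Dig S} (hd : IsBlk (n : ℤ) d.1 d.2.1) :
    A f c (n + 1) d = f (2 * n + (if d.2.2 then 1 else 0)) (gg f c) ∧
    gg f c (2 * n + (if d.2.2 then 1 else 0)) =
      fun i => (c (n * Lam S + (off d (A f c n)).toNat) i).2 d := by
  have h5 : off d (A f c n) < (Lam S : ℤ) := by
    have h1 := (off_mem d (A f c n)).2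
    have h2 := MM_pos S
    have h3 : (Lam S : ℤ) = 64 * MM S := by unfold Lam; push_cast; ring
    omega
  obtain ⟨h1, h2⟩ := (block f c hf n (Lam S) le_rfl).2.2.1 d hd h5
  have e : (n + 1) * Lam S = n * Lam S + Lam S := by ring
  rw [← e] at h1 h2
  have h3 : ∀ j' ≤ 2 * n + (if d.2.2 then 1 else 0), (st f c ((n + 1) * Lam S)).2 j' = gg f c j' := by
    intro j' hj'
    apply table f c hf
    split_ifs at hj' <;> omega
  refine ⟨?_, ?_⟩
  · unfold A
    rw [h1]
    exact hf _ _ _ h3
  · rw [← h3 _ le_rfl, h2]

theorem A_keep {y : ℕ} {d : Dig S} : ∀ Y : ℕ, y + 1 ≤ Y →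
    (∀ n : ℕ, y < n → n < Y → ¬ IsBlk (n : ℤ) d.1 d.2.1) → A f c Y d = A f c (y + 1) d := by
  intro Y hY
  induction Y, hY using Nat.le_induction with
  | base => intro _; rfl
  | succ Y hY ih =>
    intro h
    rw [A_succ_of_not f c hf (h Y (by omega) (by omega)), ih fun n h1 h2 => h n h1 (by omega)]

theorem late {n : ℕ} : ∀ e s : ℕ, s + e = Lam S → 20 * MM S < s →
    st f c (n * Lam S + s) = st f c ((n + 1) * Lam S) := by
  intro e
  induction e with
  | zero =>
    intro s hs _
    have : (n + 1) * Lam S = n * Lam S + s := by rw [← hs]; ring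
    rw [this]
  | succ e ih =>
    intro s hs h20
    rw [← ih (s + 1) (by omega) (by omega), ← add_assoc]
    refine (st_none f c ?_).symm
    rintro ⟨d, hd⟩
    obtain ⟨_, h1⟩ := (sw_iff (by omega) _ _).1 hd
    have := (off_mem d (st f c (n * Lam S + s)).1).2
    omega

end

theorem legal (t : ℕ) : Conn ((t : ℝ), (st f c t).1) (((t + 1 : ℕ) : ℝ), (st f c (t + 1)).1) 1 := by
  have hm : ∀ a : Sh S, Conn ((t : ℝ), a) (((t + 1 : ℕ) : ℝ), a) 1 := by
    intro a
    have h := Conn.move (t : ℝ) ((t + 1 : ℕ) : ℝ) a
    have e : |(t : ℝ) - ((t + 1 : ℕ) : ℝ)| = 1 := by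
      push_cast
      rw [sub_add_cancel_left, abs_neg, abs_one]
    rwa [e] at h
  by_cases h : ∃ d : Dig S, Om d ((t : ℝ), (st f c t).1)
  · obtain ⟨d, hd, he⟩ := st_some f c h
    rw [he]
    have := (Conn.jump _ _ d (f (idx t d) (stepG (c t) t d (st f c t).2)) hd).trans (hm _)
    rwa [zero_add] at this
  · rw [st_none f c h]
    exact hm _

end Pool.Agent.K7.H36.CN
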